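import Pool.Agent.H15.OC.Tr
import Pool.Agent.H94.CB.M238
import Pool.Agent.H94.CB.M260

/-!
# OC Class: quasi-projective surfaces over `ℂ^*` or an elliptic curve
-/

set_option autoImplicit false

open MvPolynomial

noncomputable section

namespace Pool.Agent.H15.OC

attribute [-instance] ProperSMul.toContinuousSMul

open Pool.Agent.H17 (PN VanishesAt)
open Pool.Agent.H17EF (projVar)
open Pool.Agent.H7.Bir (GGLOpen)
open Pool.Agent.H62.Et (GGLK)
open Pool.Agent.H17G (excG)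
open Pool.Agent.H19Q (QSurface LogClass)
open Pool.Agent.H19E.V4
open Pool.Agent.H4.LU2 (base_main2)

theorem OverGroup.tr {U : QSurface} (h : OverGroup U) : LogClass Good U := by
  induction h with
  | basic U h =>
    refine LogClass.base U fun hgt => ?_
    rcases h.tr with h | h
    · obtain ⟨Ξ, h1, -⟩ := h.good hgt
      exact ⟨Ξ, h1⟩
    · obtain ⟨Ξ, h1, -⟩ := base_main2 U h hgt
      exact ⟨Ξ, h1⟩
  | dominant U' U p hp hgt h ih => exact LogClass.dominant U' U p hp.tr hgt ih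
  | modification U' U p hp h ih => exact LogClass.modification U U' p hp.tr ih
  | unramified U' U p hp h ih => exact LogClass.unramified U U' hp.smooth.pts hp.smooth'.pts p hp.tr ih
  | orbifold U' U r w hw A R m Φ e ε hp h ih => exact hp.tr hw ih

theorem OverGroup.main {U : QSurface} (h : OverGroup U) (hgt : U.LogGeneralType) : ∃ Ξ, GGLOpen U.P U.G Ξ :=
  h.tr.main (fun _ h => h) hgt

theorem OverGroup.gglk {U : QSurface} (h : OverGroup U) (hgt : U.LogGeneralType) (hU : Projective U) (hs : SmoothOn U (cl U)) :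
    GGLK U.P := by
  have h1 : LogClass _ (proj U) := logClass_proj hU h.tr
  exact h1.gglk (fun _ h => h) (hU.gt hgt) ⟨(0 : Fin 1), rfl⟩ fun y hy hS => hs.finrank hy hS.1

theorem OverGroup.exc {U : QSurface} (h : OverGroup U) (hgt : U.LogGeneralType) (hU : Projective U) (hs : SmoothOn U (cl U)) :
    GGLOpen U.P U.G (excG U.P) := by
  obtain ⟨h1, -⟩ := h.gglk hgt hU hs
  have h2 := Pool.Agent.H7.Bir.open_four U.homog U.form U.nonempty h1
  have h3 : excG U.P ∩ Pool.Agent.H62.SA.locVar U.P U.G = excG U.P := by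
    obtain ⟨S, -, hS⟩ := h1.closed
    refine Set.inter_eq_left.2 fun x hx => ?_
    rw [hS] at hx
    exact hU hx.1
  rw [h3] at h2
  exact h2

/-- **Main theorem.** -/
theorem OverGroup.final {U : QSurface} (h : OverGroup U) (hgt : U.LogGeneralType) :
    ∃ Ξ : Set (PN U.N), GGLOpen U.P U.G Ξ ∧ (Projective U → SmoothOn U (cl U) → Ξ = excG U.P) ∧
      (IsBasicOver U ∨ (Projective U ∧ SmoothOn U (cl U)) → ∃ (Q : MvPolynomial (Fin (U.N + 1)) ℂ) (D : ℕ), Q.IsHomogeneous D ∧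
        (∃ x ∈ pts U, ¬ VanishesAt Q x) ∧ (∀ x ∈ Ξ, VanishesAt Q x) ∧ Pool.Agent.H14.KB.KobayashiHyperbolicModulo (pts U) Q D) := by
  by_cases hp : Projective U ∧ SmoothOn U (cl U)
  · refine ⟨excG U.P, h.exc hgt hp.1 hp.2, fun _ _ => rfl, fun _ => ?_⟩
    obtain ⟨-, Q, D, hQ, hQx, hQΞ, hkob⟩ := h.gglk hgt hp.1 hp.2
    have h1 : pts U = projVar U.P := Set.Subset.antisymm (fun x hx => hx.1) hp.1
    rw [h1]
    exact ⟨Q, D, hQ, hQx, hQΞ, hkob⟩
  · by_cases hb : IsBasicOver U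
    · rcases hb.tr with hb | hb
      · obtain ⟨Ξ, h1, Q, D, h2, h3, h4, h5⟩ := hb.good hgt
        exact ⟨Ξ, h1, fun h6 h7 => absurd ⟨h6, h7⟩ hp, fun _ => ⟨Q, D, h2, h3, fun x hx => ((h4 x).1 hx).2, h5⟩⟩
      · obtain ⟨Ξ, h1, Q, D, h2, h3, h4, h5⟩ := base_main2 U hb hgt
        exact ⟨Ξ, h1, fun h6 h7 => absurd ⟨h6, h7⟩ hp, fun _ => ⟨Q, D, h2, h3, fun x hx => ((h4 x).1 hx).2, h5⟩⟩
    · obtain ⟨Ξ, h1⟩ := h.main hgt
      exact ⟨Ξ, h1, fun h6 h7 => absurd ⟨h6, h7⟩ hp, fun h6 => h6.elim (fun h => absurd h hb) fun h => absurd h hp⟩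

end Pool.Agent.H15.OC
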