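import Pool.Agent.H94.CB.M244

/-!
# OC Defs: quasi-projective surfaces over `ℂ^*` or an elliptic curve, definitions
-/

set_option autoImplicit false

open Topology Filter MvPolynomial

noncomputable section

namespace Pool.Agent.H15.OC

open Pool.Agent.H17 (PN VanishesAt HolomorphicInto)
open Pool.Agent.H19Q (QSurface)
open Pool.Agent.H19E.V4

variable {M : ℕ}

/-- homogeneous coordinates -/
abbrev Vec (M : ℕ) : Type := Fin (M + 1) → ℂ

/-- `x` is a vector of homogeneous coordinates of a point of `V`. -/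
def Mem (V : Set (PN M)) (x : Vec M) : Prop := ∃ y ∈ V, Rep x y

/-- `σ` (in homogeneous coordinates) is a parametrisation of a neighbourhood of the point `y` in `Y` by a neighbourhood of `0` in `ℂ²` modulo the group of the maps
`(s, t) ↦ (ζ s, ζ⁻¹ t)`, `ζ ^ k = 1`.  The functions `s ^ k` and `t ^ k` of the points of `Y` are the restrictions of holomorphic functions, the components of `τ`.
For `k = 1` the functions `s, t` are local coordinates of the surface `Y` at `y`.  In these coordinates `V` is the set `w ≠ 0`, and `e = ε` on `V`. -/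
structure IsChart (Y V : Set (PN M)) (e : PN M → ℂ) (k : ℕ) (w ε : ℂ × ℂ → ℂ) (σ : ℂ × ℂ → Vec M) (τ : Vec M → ℂ × ℂ) (y : PN M) : Prop where
  analytic : AnalyticAt ℂ σ 0
  analytic' : AnalyticAt ℂ τ (σ 0)
  center : Rep (σ 0) y
  mem : ∀ᶠ p in 𝓝 (0 : ℂ × ℂ), ∃ q ∈ Y, Rep (σ p) q ∧ (q ∈ V ↔ w p ≠ 0) ∧ (q ∈ V → e q = ε p)
  inv : ∀ᶠ q in 𝓝 (σ 0, (1 : ℂ)), τ (q.2 • q.1) = τ q.1
  coord : ∀ᶠ p in 𝓝 (0 : ℂ × ℂ), τ (σ p) = (p.1 ^ k, p.2 ^ k)
  onto : ∀ᶠ x in 𝓝 (σ 0), Mem Y x → ∃ (a : ℂ) (p : ℂ × ℂ), a ≠ 0 ∧ x = a • σ p ∧ τ x = (p.1 ^ k, p.2 ^ k)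
  quot : ∀ᶠ p in 𝓝 (0 : ℂ × ℂ), ∀ ζ : ℂ, ζ ^ k = 1 → ∃ a : ℂ, a ≠ 0 ∧ σ (ζ * p.1, ζ⁻¹ * p.2) = a • σ p

/-- The corners of the fibre over `0` (`r = 1`) or `∞` (`r = -1`): the points of this fibre on the closure of the boundary curve over `ℂ^*`, and the nodes of this
fibre (where `Y` has a singularity `x y = e ^ k`). -/
inductive Corner (r : ℤ) : ℕ → (ℂ × ℂ → ℂ) → (ℂ × ℂ → ℂ) → Prop
  | cross : Corner r 1 (fun p => p.1 * p.2) fun p => p.1 ^ r
  | node (k : ℕ) (hk : 1 ≤ k) : Corner r k (fun p => p.1 * p.2) fun p => (p.1 * p.2) ^ r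

/-- The charts: a point of `V`; a point of the boundary curve over `ℂ^*`; a point of the fibre over `0` (`r = 1`) or `∞` (`r = -1`): a smooth point of this fibre
outside the boundary curve, or a corner. -/
inductive Shape : ℕ → (ℂ × ℂ → ℂ) → (ℂ × ℂ → ℂ) → Prop
  | inner (c : ℂ) (i j : ℕ) (hi : 1 ≤ i) : Shape 1 (fun _ => 1) fun p => Complex.exp (c + p.1 ^ i * p.2 ^ j)
  | curve (c : ℂ) (i : ℕ) (hi : 1 ≤ i) : Shape 1 (fun p => p.2) fun p => Complex.exp (c + p.1 ^ i)
  | regular (r : ℤ) (hr : r = 1 ∨ r = -1) : Shape 1 (fun p => p.1) fun p => p.1 ^ r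
  | corner (r : ℤ) (hr : r = 1 ∨ r = -1) (k : ℕ) (w ε : ℂ × ℂ → ℂ) (h : Corner r k w ε) : Shape k w ε

/-- `Y ⊆ ℙ^M` is closed and `e : V → ℂ^*` is a family of curves with a semistable compactification `Y` over `ℙ¹`: over `ℂ^*` the surface `Y` is smooth, the fibres of
`e` have normal crossings (multiplicities are allowed), and `Y ∖ V` is a smooth curve which is transversal to the reduced fibres; over `0` and `∞` the fibres are
reduced with normal crossings, `Y ∖ V` is the fibre together with a curve which is transversal to it and avoids its nodes.  The curves are hyperbolic. -/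
structure IsModel (Y V : Set (PN M)) (e : PN M → ℂ) : Prop where
  closed : ∀ x y, Rep x y → x ∈ closure {x' | Mem Y x'} → y ∈ Y
  sub : V ⊆ Y
  chart : ∀ y ∈ Y, ∃ k w ε σ τ, Shape k w ε ∧ IsChart Y V e k w ε σ τ y
  corners : ∀ r : ℤ, r = 1 ∨ r = -1 → {y | ∃ k w ε σ τ, Corner r k w ε ∧ IsChart Y V e k w ε σ τ y}.Finite
  /-- the fibres outside a finite set contain no nonconstant entire curves -/
  fibre : ∃ B : Set ℂ, B.Finite ∧ ∀ c, c ∉ B → ∀ f : ℂ → PN M, HolomorphicInto f Set.univ → (∀ z, f z ∈ V ∧ e (f z) = c) → ∀ z w, f z = f w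
  /-- the fibres over `0` and `∞`, without their nodes and without the points of the boundary curve, contain no nonconstant entire curves -/
  ends : ∀ r : ℤ, r = 1 ∨ r = -1 → ∀ f : ℂ → PN M, HolomorphicInto f Set.univ →
    (∀ z, ∃ σ τ, IsChart Y V e 1 (fun p => p.1) (fun p => p.1 ^ r) σ τ (f z)) → ∀ z w, f z = f w

/-- `x` is a vector of homogeneous coordinates of a point of `V` over `exp z`. -/
def Over (V : Set (PN M)) (e : PN M → ℂ) (z : ℂ) (x : Vec M) : Prop := ∃ y ∈ V, Rep x y ∧ e y = Complex.exp z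

/-- `v` is a tangent vector at `x` of the affine cone over `V`. -/
def Tan (V : Set (PN M)) (x v : Vec M) : Prop :=
  ∃ γ : ℂ → Vec M, AnalyticAt ℂ γ 0 ∧ γ 0 = x ∧ deriv γ 0 = v ∧ ∀ᶠ z in 𝓝 (0 : ℂ), Mem V (γ z)

/-- `Ω` is a holomorphic `2`-form on the surface `V_m = {(x, v) : x ∈ V, v ^ m = e x}`, with at most logarithmic poles at the boundary curve and at the fibres
over `0` and `∞`.  It is given as a function of `z`, `v = exp (z / m)`, the homogeneous coordinates of `x`, and two tangent vectors of the cone over `V`. -/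
structure IsForm (Y V : Set (PN M)) (e : PN M → ℂ) (m : ℕ) (Ω : ℂ → Vec M → Vec M → Vec M → ℂ) : Prop where
  /-- the form depends only on `exp (z / m)` -/
  periodic : ∀ z x, Over V e z x → ∀ v w, Tan V x v → Tan V x w → Ω (z + 2 * Real.pi * Complex.I * m) x v w = Ω z x v w
  /-- the form depends only on the images of the tangent vectors in the tangent space of the projective space -/
  horizontal : ∀ z x, Over V e z x → ∀ v w, Tan V x v → Tan V x w → ∀ a b : ℂ, Ω z x (v + a • x) (w + b • x) = Ω z x v w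
  /-- the form is bilinear and alternating -/
  alternating : ∀ z x, Over V e z x → ∀ v w, Tan V x v → Tan V x w → ∀ a b c d : ℂ,
    Ω z x (a • v + b • w) (c • v + d • w) = (a * d - b * c) * Ω z x v w
  /-- the form does not depend on the choice of the homogeneous coordinates -/
  homogeneous : ∀ z x, Over V e z x → ∀ v w, Tan V x v → Tan V x w → ∀ c : ℂ, c ≠ 0 → Ω z (c • x) (c • v) (c • w) = Ω z x v w
  /-- the form is holomorphic -/
  holomorphic : ∀ (φ : ℂ × ℂ → Vec M) (υ : ℂ × ℂ → ℂ) (p : ℂ × ℂ), AnalyticAt ℂ φ p → AnalyticAt ℂ υ p →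
    (∀ᶠ y in 𝓝 p, Over V e (υ y) (φ y)) → AnalyticAt ℂ (fun y => Ω (υ y) (φ y) (fderiv ℂ φ y (1, 0)) (fderiv ℂ φ y (0, 1))) p
  /-- at most logarithmic poles -/
  poles : ∀ k w ε σ τ y, Shape k w ε → IsChart Y V e k w ε σ τ y → ∃ C : ℝ, ∀ᶠ p in 𝓝 (0 : ℂ × ℂ), ∀ z, Over V e z (σ p) →
    ‖w p * Ω z (σ p) (fderiv ℂ σ p (1, 0)) (fderiv ℂ σ p (0, 1))‖ ≤ C

/-- For some `m ≥ 1` there are, for infinitely many `a = exp (z / m)`, forms on `V_m` as above which are `0` at all points over `a`, but on no nonempty open set. -/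
def HasForms (Y V : Set (PN M)) (e : PN M → ℂ) : Prop :=
  ∃ m : ℕ, 1 ≤ m ∧ {a : ℂ | ∃ Ω, IsForm Y V e m Ω ∧
    (∀ z x, Over V e z x → ∃ᶠ q in 𝓝 (z, x), Over V e q.1 q.2 ∧ ∃ v w, Tan V q.2 v ∧ Tan V q.2 w ∧ Ω q.1 q.2 v w ≠ 0) ∧
    ∀ z : ℂ, Complex.exp (z / m) = a → ∀ x, Over V e z x → ∀ v w, Tan V x v → Tan V x w → Ω z x v w = 0}.Infinite

/-- `j` is an injective regular map from `U` to `V`, and `e ∘ j` is a nonconstant rational function. -/
structure IsRegularInto (U : QSurface) (V : Set (PN M)) (e : PN M → ℂ) (j : PN U.N → PN M) : Prop where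
  maps : ∀ x ∈ pts U, j x ∈ V
  inj : ∀ x ∈ pts U, ∀ x' ∈ pts U, j x = j x' → x = x'
  regular : IsRegular (pts U) j
  rational : ∃ (d : ℕ) (A : Fin 2 → MvPolynomial (Fin (U.N + 1)) ℂ), (∀ i, (A i).IsHomogeneous d) ∧ (∀ c : ℂ, A 0 - C c * A 1 ∉ U.P) ∧ A 1 ∉ U.P ∧
    ∀ x, ∀ y ∈ pts U, Rep x y → e (j y) * eval x (A 1) = eval x (A 0)

/-- The map `S` from `ℂ^*` to `ℙ¹` is given by a rational function, and not constant. -/
def IsRational (S : ℂˣ → PN 1) : Prop := (∃ p : Fin 2 → Polynomial ℂ, ∀ v : ℂˣ, Rep (fun i => (p i).eval (v : ℂ)) (S v)) ∧ ∃ c c', S c ≠ S c'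

/-- `u` is a map from `U` to `G` (`G` is `ℂ^*` or an elliptic curve), `F` a set of maps from `G` to `ℙ¹`, `R ∘ u = (A 0 : A 1)` for the map `R` from `G` to `ℙ¹`, and
`w = (W 0 : W 1)` is a rational function on `X` which is independent of `R ∘ u`, such that outside the fibres of `u` over a finite set `B` it is regular on `U`
and omits the values `0`, `1`, `∞`, and either it omits there the values of `S ∘ u` for a map `S` in `F`, or, for one point `c` of `G`, it is a regular map to `ℙ¹` at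
all points of `U` over `c`, with finitely many values at these points. -/
structure HasFunctionOver (U : QSurface) {G : Type} (u : PN U.N → G) (F : Set (G → PN 1)) (R : G → PN 1)
    (A W : Fin 2 → MvPolynomial (Fin (U.N + 1)) ℂ) : Prop where
  forms : (∃ d, ∀ i, (A i).IsHomogeneous d) ∧ ∃ d, ∀ i, (W i).IsHomogeneous d
  value : ∀ x ∈ pts U, HasValue U A x (R (u x))
  independent : ∀ Φ : MvPolynomial (Fin 2) ℂ, Φ ≠ 0 → ∃ y, ∃ x ∈ pts U, Rep y x ∧
    eval y (A 1) ≠ 0 ∧ eval y (W 1) ≠ 0 ∧ eval ![eval y (A 0) / eval y (A 1), eval y (W 0) / eval y (W 1)] Φ ≠ 0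
  omits : ∃ B : Set G, B.Finite ∧
    (∀ x ∈ pts U, u x ∉ B → ∃ q, HasValue U W x q ∧ ¬ Rep ![0, 1] q ∧ ¬ Rep ![1, 1] q ∧ ¬ Rep ![1, 0] q) ∧
    ((∃ S ∈ F, ∀ x ∈ pts U, u x ∉ B → ∀ q, HasValue U W x q → q ≠ S (u x)) ∨
      ∃ (c : G) (T : Set (PN 1)), T.Finite ∧ ∀ x ∈ pts U, u x = c → ∃ q ∈ T, HasValue U W x q)

/-- The closure `X` of `U` is a smooth projective surface, and the boundary `X ∖ U` is a curve: near every point of `X` it is given by one equation. -/
structure IsCurveComplement (U : QSurface) : Prop where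
  smooth : SmoothOn U (cl U)
  curve : ∀ x ∈ cl U, ∃ (A R : MvPolynomial (Fin (U.N + 1)) ℂ) (a r : ℕ), A.IsHomogeneous a ∧ R.IsHomogeneous r ∧ ¬ VanishesAt A x ∧
    ∀ y ∈ cl U, ¬ VanishesAt A y → (y ∈ pts U ↔ ¬ VanishesAt R y)

/-- `U` is one of the basic surfaces over an elliptic curve, or one of the basic surfaces over `ℂ^*`. -/
def IsBasicOver (U : QSurface) : Prop :=
  (∃ (w : Fin 2 → ℂ) (u : PN U.N → ℂ ⧸ AddSubgroup.closure (Set.range w)), IsOver U w u ∧
    ((∃ w' D, HasFormsAlong U w w' u D) ∨ (∃ R A W, IsElliptic R ∧ HasFunctionOver U u {S | IsElliptic S} R A W) ∨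
      ∃ (s : ℕ) (H : Fin s → MvPolynomial (Fin (U.N + 1)) ℂ), IsComplement U H)) ∨
  (IsCurveComplement U ∧
    ((∃ (M : ℕ) (Y V : Set (PN M)) (e : PN M → ℂ) (j : PN U.N → PN M), IsModel Y V e ∧ HasForms Y V e ∧ IsRegularInto U V e j) ∨
      ∃ (u : PN U.N → ℂˣ) (R : ℂˣ → PN 1) (A W : Fin 2 → MvPolynomial (Fin (U.N + 1)) ℂ), (∀ v : ℂˣ, Rep ![(v : ℂ), 1] (R v)) ∧
        HasFunctionOver U u {S | IsRational S} R A W))

/-- The smallest class of quasi-projective surfaces with the following properties. -/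
inductive OverGroup : QSurface → Prop
  /-- The class contains the basic surfaces over an elliptic curve or over `ℂ^*`. -/
  | basic (U : QSurface) (h : IsBasicOver U) : OverGroup U
  /-- The class contains `U'` if there is a dominant regular map `U' → U` and `U` is in the class and of log general type. -/
  | dominant (U' U : QSurface) (p : PN U'.N → PN U.N) (hp : IsDominant U' U p) (hgt : U.LogGeneralType) (h : OverGroup U) : OverGroup U'
  /-- The class contains `U` if it contains a surface `U'` with a modification `U' → U`. -/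
  | modification (U' U : QSurface) (p : PN U'.N → PN U.N) (hp : IsModification U' U p) (h : OverGroup U') : OverGroup U
  /-- The class contains `U` if it contains a surface `U'` with an unramified covering `U' → U`. -/
  | unramified (U' U : QSurface) (p : PN U'.N → PN U.N) (hp : IsUnramified U' U p) (h : OverGroup U') : OverGroup U
  /-- The class contains `U` if it contains a surface `U'` with an orbifold covering `U' → U` as in `IsOrbifoldCovering`. -/
  | orbifold (U' U : QSurface) (r : ℕ) (w : Fin 2 → ℂ) (hw : LinearIndependent ℝ w) (A : Fin 2 → MvPolynomial (Fin (U.N + 1)) ℂ)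
      (R : ℂ ⧸ AddSubgroup.closure (Set.range w) → PN 1) (m : ℕ) (Φ : MvPolynomial (Fin 2) ℂ) (e : ℂ ⧸ AddSubgroup.closure (Set.range w) → PN r)
      (ε : Fin (U'.N + 1) ≃ Fin (U.N + 1) × Fin (r + 1)) (hp : IsOrbifoldCovering U' U A R m Φ e ε) (h : OverGroup U') : OverGroup U

end Pool.Agent.H15.OC
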