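import Pool.Agent.H15.OC.Defs
import Pool.Agent.H94.CB.M237
import Pool.Agent.H94.CB.M258
import Pool.Agent.H94.CB.M202

/-!
# OC Tr: translation of the definitions for surfaces over `ℂ^*`
-/

set_option autoImplicit false

open Topology Filter MvPolynomial

noncomputable section

namespace Pool.Agent.H15.OC

attribute [-instance] ProperSMul.toContinuousSMul

open Pool.Agent.H17 (PN VanishesAt HolomorphicInto)
open Pool.Agent.H19Q (QSurface)
open Pool.Agent.H19E.V4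

variable {M : ℕ} {Y V : Set (PN M)} {e : PN M → ℂ} {x v : Vec M}

theorem mem_iff : Mem V x ↔ Pool.Agent.H4.LU.Mem V x := by
  constructor
  · rintro ⟨y, hy, h, rfl⟩
    exact ⟨h, hy⟩
  · rintro ⟨h, hy⟩
    exact ⟨_, hy, h, rfl⟩

theorem val_eq {y : PN M} (h : Rep x y) : Pool.Agent.H4.LU.val e x = e y := by
  obtain ⟨h1, rfl⟩ := h
  unfold Pool.Agent.H4.LU.val
  exact dif_pos h1

theorem over_iff {z : ℂ} : Over V e z x ↔ Pool.Agent.H4.LU.Over V e z x := by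
  constructor
  · rintro ⟨y, hy, h, he⟩
    exact ⟨mem_iff.1 ⟨y, hy, h⟩, (val_eq h).trans he⟩
  · rintro ⟨h1, h2⟩
    obtain ⟨y, hy, h⟩ := mem_iff.2 h1
    exact ⟨y, hy, h, (val_eq h).symm.trans h2⟩

theorem tan_iff : Tan V x v ↔ Pool.Agent.H4.LU.IsTangent V x v := by
  constructor
  · rintro ⟨γ, h1, h2, h3, h4⟩
    exact ⟨γ, h1, h2, h3, h4.mono fun _ h => mem_iff.1 h⟩
  · rintro ⟨γ, h1, h2, h3, h4⟩
    exact ⟨γ, h1, h2, h3, h4.mono fun _ h => mem_iff.2 h⟩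

theorem chart_iff {k : ℕ} {w ε : ℂ × ℂ → ℂ} {σ : ℂ × ℂ → Vec M} {τ : Vec M → ℂ × ℂ} {y : PN M} :
    IsChart Y V e k w ε σ τ y ↔ Pool.Agent.H4.LU.IsParam Y k σ τ y ∧
      ∀ᶠ p in 𝓝 (0 : ℂ × ℂ), (Pool.Agent.H4.LU.Mem V (σ p) ↔ w p ≠ 0) ∧ (Pool.Agent.H4.LU.Mem V (σ p) → Pool.Agent.H4.LU.val e (σ p) = ε p) := by
  constructor
  · intro h
    refine ⟨⟨h.analytic, h.analytic', ?_, ?_, h.inv, h.coord, ?_, h.quot⟩, ?_⟩
    · obtain ⟨h1, h2⟩ := h.center
      exact ⟨h1, h2.symm⟩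
    · filter_upwards [h.mem] with p hp
      obtain ⟨q, hq, hr, -⟩ := hp
      exact mem_iff.1 ⟨q, hq, hr⟩
    · filter_upwards [h.onto] with x' hx' h1
      exact hx' (mem_iff.2 h1)
    · filter_upwards [h.mem] with p hp
      obtain ⟨q, hq, ⟨h0, rfl⟩, h1, h2⟩ := hp
      refine ⟨⟨fun ⟨_, h3⟩ => h1.1 h3, fun h3 => ⟨h0, h1.2 h3⟩⟩, fun ⟨_, h3⟩ => ?_⟩
      rw [val_eq ⟨h0, rfl⟩]
      exact h2 h3
  · rintro ⟨h, h'⟩
    refine ⟨h.analytic, h.analytic', ?_, ?_, h.inv, h.coord, ?_, h.quot⟩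
    · obtain ⟨h1, h2⟩ := h.center
      exact ⟨h1, h2.symm⟩
    · filter_upwards [h.mem, h'] with p hp hp'
      obtain ⟨h0, h1⟩ := hp
      refine ⟨_, h1, ⟨h0, rfl⟩, ⟨fun h3 => hp'.1.1 ⟨h0, h3⟩, fun h3 => ?_⟩, fun h3 => ?_⟩
      · obtain ⟨_, h4⟩ := hp'.1.2 h3
        exact h4
      · rw [← hp'.2 ⟨h0, h3⟩, val_eq ⟨h0, rfl⟩]
    · filter_upwards [h.onto] with x' hx' h1
      exact hx' (mem_iff.1 h1)

theorem endChart_iff {e' : PN M → ℂ} {r : ℤ} (he : ∀ y c, e' y = c ↔ e y = c ^ r) {k : ℕ} {nd hor : Bool} {σ : ℂ × ℂ → Vec M}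
    {τ : Vec M → ℂ × ℂ} {y : PN M} :
    Pool.Agent.H4.LU.IsEndChart Y V e' k nd hor σ τ y ↔ 1 ≤ k ∧ (nd = false → k = 1) ∧
      IsChart Y V e k (fun p => if nd = true ∨ hor = true then p.1 * p.2 else p.1) (fun p => (if nd = true then p.1 * p.2 else p.1) ^ r) σ τ y := by
  rw [chart_iff]
  unfold Pool.Agent.H4.LU.IsEndChart
  have key : ∀ p : ℂ × ℂ, (p.1 ≠ 0 ∧ (nd = true ∨ hor = true → p.2 ≠ 0)) ↔ (if nd = true ∨ hor = true then p.1 * p.2 else p.1) ≠ 0 := by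
    intro p
    split_ifs with h
    · rw [mul_ne_zero_iff]
      exact ⟨fun h1 => ⟨h1.1, h1.2 h⟩, fun h1 => ⟨h1.1, fun _ => h1.2⟩⟩
    · exact ⟨fun h1 => h1.1, fun h1 => ⟨h1, fun h2 => absurd h2 h⟩⟩
  have key2 : ∀ x : Vec M, Pool.Agent.H4.LU.Mem V x → ∀ c, Pool.Agent.H4.LU.val e' x = c ↔ Pool.Agent.H4.LU.val e x = c ^ r := by
    rintro x ⟨h, -⟩ c
    rw [val_eq (e := e') ⟨h, rfl⟩, val_eq (e := e) ⟨h, rfl⟩]
    exact he _ c
  constructor
  · rintro ⟨h1, h2, h3, h4⟩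
    exact ⟨h2, h3, h1, h4.mono fun p hp => ⟨hp.1.trans (key p), fun hm => (key2 _ hm _).1 (hp.2 hm)⟩⟩
  · rintro ⟨h2, h3, h1, h4⟩
    exact ⟨h1, h2, h3, h4.mono fun p hp => ⟨hp.1.trans (key p).symm, fun hm => (key2 _ hm _).2 (hp.2 hm)⟩⟩

theorem shape_end {r : ℤ} (hr : r = 1 ∨ r = -1) {k : ℕ} {nd hor : Bool} (hk : 1 ≤ k) (hnd : nd = false → k = 1) :
    Shape k (fun p => if nd = true ∨ hor = true then p.1 * p.2 else p.1) (fun p => (if nd = true then p.1 * p.2 else p.1) ^ r) := by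
  cases nd
  · obtain rfl := hnd rfl
    cases hor
    · simpa using Shape.regular r hr
    · simpa using Shape.corner r hr 1 _ _ Corner.cross
  · simpa using Shape.corner r hr k _ _ (Corner.node k hk)

theorem corner_end {r : ℤ} {k : ℕ} {nd hor : Bool} (hk : 1 ≤ k) (hnd : nd = false → k = 1) (h : ¬ (nd = false ∧ hor = false)) :
    Corner r k (fun p => if nd = true ∨ hor = true then p.1 * p.2 else p.1) (fun p => (if nd = true then p.1 * p.2 else p.1) ^ r) := by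
  cases nd
  · obtain rfl := hnd rfl
    cases hor
    · exact absurd ⟨rfl, rfl⟩ h
    · simpa using (Corner.cross : Corner r 1 _ _)
  · simpa using (Corner.node k hk : Corner r k _ _)

theorem pow_one' (e : PN M → ℂ) (y : PN M) (c : ℂ) : e y = c ↔ e y = c ^ (1 : ℤ) := by rw [zpow_one]

theorem pow_neg (e : PN M → ℂ) (y : PN M) (c : ℂ) : (e y)⁻¹ = c ↔ e y = c ^ (-1 : ℤ) := by
  rw [zpow_neg_one]
  exact inv_eq_iff_eq_inv

/-- the charts at the ends -/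
theorem corners_sub {e' : PN M → ℂ} {r : ℤ} (he : ∀ y c, e' y = c ↔ e y = c ^ r) :
    {y ∈ Y | Pool.Agent.H4.LU.IsEnd Y V e' y ∧ ¬ Pool.Agent.H4.LU.IsRegularEnd Y V e' y} ⊆
      {y | ∃ k w ε σ τ, Corner r k w ε ∧ IsChart Y V e k w ε σ τ y} := by
  rintro y ⟨-, ⟨k, nd, hor, σ, τ, h⟩, hnr⟩
  obtain ⟨h1, h2, h3⟩ := (endChart_iff he).1 h
  refine ⟨k, _, _, σ, τ, corner_end h1 h2 ?_, h3⟩
  rintro ⟨rfl, rfl⟩
  obtain rfl := h2 rfl
  exact hnr ⟨σ, τ, h⟩

theorem regular_iff {e' : PN M → ℂ} {r : ℤ} (he : ∀ y c, e' y = c ↔ e y = c ^ r) {y : PN M} (h : Pool.Agent.H4.LU.IsRegularEnd Y V e' y) :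
    ∃ σ τ, IsChart Y V e 1 (fun p => p.1) (fun p => p.1 ^ r) σ τ y := by
  obtain ⟨σ, τ, h1⟩ := h
  have h2 := ((endChart_iff he).1 h1).2.2
  exact ⟨σ, τ, by simpa using h2⟩

theorem end_of {e' : PN M → ℂ} {r : ℤ} (he : ∀ y c, e' y = c ↔ e y = c ^ r) {k : ℕ} {nd hor : Bool} (hk : 1 ≤ k) (hnd : nd = false → k = 1)
    {σ : ℂ × ℂ → Vec M} {τ : Vec M → ℂ × ℂ} {y : PN M}
    (h : IsChart Y V e k (fun p => if nd = true ∨ hor = true then p.1 * p.2 else p.1) (fun p => (if nd = true then p.1 * p.2 else p.1) ^ r) σ τ y) :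
    Pool.Agent.H4.LU.IsEnd Y V e' y := ⟨k, nd, hor, σ, τ, (endChart_iff he).2 ⟨hk, hnd, h⟩⟩

theorem end_or (hr : ∀ r : ℤ, r = 1 ∨ r = -1 → ∃ e' : PN M → ℂ, (∀ y c, e' y = c ↔ e y = c ^ r) ∧ (e' = e ∨ e' = fun y => (e y)⁻¹)) {y : PN M} {r : ℤ}
    (h : r = 1 ∨ r = -1) {k : ℕ} {nd hor : Bool} (hk : 1 ≤ k) (hnd : nd = false → k = 1) {σ : ℂ × ℂ → Vec M} {τ : Vec M → ℂ × ℂ}
    (hc : IsChart Y V e k (fun p => if nd = true ∨ hor = true then p.1 * p.2 else p.1) (fun p => (if nd = true then p.1 * p.2 else p.1) ^ r) σ τ y) :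
    Pool.Agent.H4.LU.IsEnd Y V e y ∨ Pool.Agent.H4.LU.IsEnd Y V (fun y => (e y)⁻¹) y := by
  obtain ⟨e', he, h1⟩ := hr r h
  have h2 := end_of he hk hnd hc
  rcases h1 with rfl | rfl
  · exact Or.inl h2
  · exact Or.inr h2

theorem exists_pow (e : PN M → ℂ) (r : ℤ) (h : r = 1 ∨ r = -1) :
    ∃ e' : PN M → ℂ, (∀ y c, e' y = c ↔ e y = c ^ r) ∧ (e' = e ∨ e' = fun y => (e y)⁻¹) := by
  rcases h with rfl | rfl
  · exact ⟨e, pow_one' e, Or.inl rfl⟩
  · exact ⟨fun y => (e y)⁻¹, pow_neg e, Or.inr rfl⟩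

theorem IsModel.tr (h : IsModel Y V e) : Pool.Agent.H4.LU.IsModel Y V e where
  closed := fun x hx hc => by
    have h1 : {x' | Pool.Agent.H4.LU.Mem Y x'} = {x' | Mem Y x'} := by
      ext x'
      exact mem_iff.symm
    rw [h1] at hc
    exact ⟨hx, h.closed x _ ⟨hx, rfl⟩ hc⟩
  sub := h.sub
  point := fun y hy => by
    obtain ⟨k, w, ε, σ, τ, hs, hc⟩ := h.chart y hy
    cases hs with
    | inner c i j hi =>
      obtain ⟨h1, h2⟩ := chart_iff.1 hc
      exact Or.inl ⟨σ, τ, c, i, j, h1, hi, h2.mono fun p hp => ⟨hp.1.2 one_ne_zero, hp.2 (hp.1.2 one_ne_zero)⟩⟩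
    | curve c i hi =>
      obtain ⟨h1, h2⟩ := chart_iff.1 hc
      exact Or.inr (Or.inl ⟨σ, τ, h1, c, i, hi, h2.mono fun p hp => ⟨hp.1, fun h3 => hp.2 (hp.1.2 h3)⟩⟩)
    | regular r hr =>
      refine Or.inr (Or.inr (end_or (exists_pow e) hr (nd := false) (hor := false) le_rfl (fun _ => rfl) (σ := σ) (τ := τ) ?_))
      simpa using hc
    | corner r hr k w ε hcor =>
      cases hcor with
      | cross =>
        refine Or.inr (Or.inr (end_or (exists_pow e) hr (nd := false) (hor := true) le_rfl (fun _ => rfl) (σ := σ) (τ := τ) ?_))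
        simpa using hc
      | node _ hk =>
        refine Or.inr (Or.inr (end_or (exists_pow e) hr (nd := true) (hor := true) hk (fun h => absurd h (by decide)) (σ := σ) (τ := τ) ?_))
        simpa using hc
  zero := (h.corners 1 (Or.inl rfl)).subset (corners_sub (pow_one' e))
  infty := (h.corners (-1) (Or.inr rfl)).subset (corners_sub (pow_neg e))

theorem IsModel.hyp (h : IsModel Y V e) : Pool.Agent.H4.LU.IsHyperbolic Y V e where
  fibre := h.fibre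
  zero := fun f hf hz => h.ends 1 (Or.inl rfl) f hf fun z => regular_iff (pow_one' e) (hz z)
  infty := fun f hf hz => h.ends (-1) (Or.inr rfl) f hf fun z => regular_iff (pow_neg e) (hz z)

theorem IsForm.tr {m : ℕ} {Ω : ℂ → Vec M → Vec M → Vec M → ℂ} (h : IsForm Y V e m Ω) : Pool.Agent.H4.LU.IsLogForm Y V e m Ω where
  periodic := fun z x hx v w hv hw => h.periodic z x (over_iff.2 hx) v w (tan_iff.2 hv) (tan_iff.2 hw)
  horizontal := fun z x hx v w hv hw => h.horizontal z x (over_iff.2 hx) v w (tan_iff.2 hv) (tan_iff.2 hw)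
  alternating := fun z x hx v w hv hw => h.alternating z x (over_iff.2 hx) v w (tan_iff.2 hv) (tan_iff.2 hw)
  homogeneous := fun z x hx v w hv hw => h.homogeneous z x (over_iff.2 hx) v w (tan_iff.2 hv) (tan_iff.2 hw)
  holomorphic := fun φ υ p h1 h2 h3 => h.holomorphic φ υ p h1 h2 (h3.mono fun _ h4 => over_iff.2 h4)
  hor := fun σ τ y hc => by
    obtain ⟨h1, c, i, hi, h2⟩ := hc
    obtain ⟨C, hC⟩ := h.poles 1 _ _ σ τ y (Shape.curve c i hi) (chart_iff.2 ⟨h1, h2.mono fun p hp => ⟨hp.1, fun h3 => hp.2 (hp.1.1 h3)⟩⟩)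
    exact ⟨C, hC.mono fun p hp z hz => hp z (over_iff.2 hz)⟩
  zero := fun k nd hor σ τ y hc => by
    obtain ⟨h1, h2, h3⟩ := (endChart_iff (pow_one' e)).1 hc
    obtain ⟨C, hC⟩ := h.poles k _ _ σ τ y (shape_end (Or.inl rfl) h1 h2) h3
    exact ⟨C, hC.mono fun p hp z hz => hp z (over_iff.2 hz)⟩
  infty := fun k nd hor σ τ y hc => by
    obtain ⟨h1, h2, h3⟩ := (endChart_iff (pow_neg e)).1 hc
    obtain ⟨C, hC⟩ := h.poles k _ _ σ τ y (shape_end (Or.inr rfl) h1 h2) h3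
    exact ⟨C, hC.mono fun p hp z hz => hp z (over_iff.2 hz)⟩

theorem HasForms.tr (h : HasForms Y V e) : Pool.Agent.H4.LU.HasLogForms Y V e := by
  obtain ⟨m, hm, hinf⟩ := h
  refine ⟨m, hm, hinf.mono ?_⟩
  rintro a ⟨Ω, hΩ, h1, h2⟩
  refine ⟨Ω, hΩ.tr, fun z x hx => (h1 z x (over_iff.2 hx)).mono ?_, fun z hz x hx v w hv hw => h2 z hz x (over_iff.2 hx) v w (tan_iff.2 hv) (tan_iff.2 hw)⟩
  rintro q ⟨h3, v, w, hv, hw, h4⟩
  exact ⟨over_iff.1 h3, v, w, tan_iff.1 hv, tan_iff.1 hw, h4⟩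

theorem IsRegularInto.tr {U : QSurface} {j : PN U.N → PN M} (h : IsRegularInto U V e j) : Pool.Agent.H4.LU.IsRegularInto U.P U.G V e j where
  maps := h.maps
  inj := h.inj
  rational := by
    obtain ⟨d, A, hA, h1, h2, h3⟩ := h.rational
    exact ⟨d, A 0, A 1, hA 0, hA 1, h1, h2, fun x hx => h3 x.rep x hx ⟨x.rep_nonzero, (Projectivization.mk_rep x).symm⟩⟩
  regular := fun x hx hS => by
    obtain ⟨γ, ⟨⟨d, hd⟩, h1⟩, h2⟩ := h.regular x _ hS ⟨hx, rfl⟩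
    refine ⟨d, γ, hd, h2, fun x' hx' h3 hS' => ?_⟩
    obtain ⟨_, h4⟩ := h1 x' _ hS' ⟨hx', rfl⟩ h3
    exact h4

theorem HasFunctionOver.elliptic {U : QSurface} {Λ : AddSubgroup ℂ} {u : PN U.N → ℂ ⧸ Λ} {R : ℂ ⧸ Λ → PN 1}
    {A W : Fin 2 → MvPolynomial (Fin (U.N + 1)) ℂ} (hR : IsElliptic R) (h : HasFunctionOver U u {S | IsElliptic S} R A W) : HasFunction U u W where
  forms := h.forms.2
  independent := ⟨R, A, hR, h.forms.1, h.value, h.independent⟩
  omits := h.omits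

theorem IsCurveComplement.finrank {U : QSurface} (h : IsCurveComplement U) (y : Fin (U.N + 1) → ℂ) (hy : y ≠ 0)
    (h0 : ∀ Q ∈ U.P, eval y Q = 0) : Module.finrank ℂ (Pool.Agent.H13.SM.conTan U.P y) ≤ 3 := by
  obtain ⟨f, hf, hli⟩ := h.smooth y _ ((Pool.Agent.H17EF.mk_mem_projVar U.homog hy).2 ⟨hy, h0⟩) ⟨hy, rfl⟩
  have h1 : Module.finrank ℂ (Pool.Agent.H13.SM.conTan U.P y) ≤ 3 := by
    let A : Matrix (Fin (U.N - 2)) (Fin (U.N + 1)) ℂ := Matrix.of fun j i => eval y (pderiv i (f j))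
    have hA : LinearIndependent ℂ A.row := hli
    have h1 : A.rank = U.N - 2 := by
      rw [hA.rank_matrix, Fintype.card_fin]
    have h2 := LinearMap.finrank_range_add_finrank_ker A.mulVecLin
    have h3 : Pool.Agent.H13.SM.conTan U.P y ≤ LinearMap.ker A.mulVecLin := by
      intro v hv
      rw [LinearMap.mem_ker]
      funext j
      show ∑ i, A j i * v i = 0
      rw [← hv (f j) (hf j)]
      exact Finset.sum_congr rfl fun i _ => mul_comm _ _
    have h4 := Submodule.finrank_mono h3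
    have h5 : Module.finrank ℂ (LinearMap.range A.mulVecLin) = U.N - 2 := h1
    rw [h5, Module.finrank_fin_fun] at h2
    omega
  exact h1

/-- the basic surfaces over `ℂ^*` with a rational function -/
theorem HasFunctionOver.unit {U : QSurface} {u : PN U.N → ℂˣ} {R : ℂˣ → PN 1} {A W : Fin 2 → MvPolynomial (Fin (U.N + 1)) ℂ}
    (hU : IsCurveComplement U) (hR : ∀ v : ℂˣ, Rep ![(v : ℂ), 1] (R v)) (h : HasFunctionOver U u {S | IsRational S} R A W) :
    Pool.Agent.H46.LR.IsBaseR U := by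
  obtain ⟨⟨dA, hA⟩, dW, hW⟩ := h.forms
  obtain ⟨B, hB, hom, hcase⟩ := h.omits
  have hA1 : A 1 ∉ U.P := by
    intro hmem
    obtain ⟨y, x, hx, ⟨hy, rfl⟩, h1, -⟩ := h.independent 1 one_ne_zero
    exact h1 (((Pool.Agent.H17EF.mk_mem_projVar U.homog hy).1 hx.1).2 _ hmem)
  have hval : ∀ x ∈ pts U, Pool.Agent.H46.LR.HasValue U.P (A 0) (A 1) x (u x : ℂ) 1 := fun x hx => (h.value x hx).tr (hR (u x))
  have huniq : ∀ x ∈ pts U, ∀ v, Pool.Agent.H46.LR.HasValue U.P (A 0) (A 1) x v 1 → v = (u x : ℂ) := fun x hx v hv =>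
    Pool.Agent.H46.LR.HasValue.unique hA1 hx.1 hv (hval x hx)
  refine ⟨hU.finrank, hU.curve, A 0, A 1, W 0, W 1, (fun v : ℂˣ => (v : ℂ)) '' B, ⟨⟨dA, hA 0, hA 1⟩, ⟨dW, hW 0, hW 1⟩, fun Φ hΦ => ?_,
    fun x hx => ⟨_, (u x).ne_zero, hval x hx⟩⟩, hB.image _, fun x hx v hv hvB => ?_, ?_⟩
  · obtain ⟨y, x, hx, ⟨hy, rfl⟩, h1, h2, h3⟩ := h.independent Φ hΦ
    obtain ⟨a, ha, hrep⟩ := Pool.Agent.H36.BP.rep_mk hy
    have hvA : ∀ i, eval (Projectivization.mk ℂ y hy).rep (A i) = a ^ dA * eval y (A i) := fun i => by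
      rw [hrep]
      exact Pool.Agent.H17BP.eval_smul_form (hA i) a y
    have hvW : ∀ i, eval (Projectivization.mk ℂ y hy).rep (W i) = a ^ dW * eval y (W i) := fun i => by
      rw [hrep]
      exact Pool.Agent.H17BP.eval_smul_form (hW i) a y
    refine ⟨_, hx, ?_, ?_, ?_⟩
    · unfold VanishesAt
      rw [hvA]
      exact mul_ne_zero (pow_ne_zero _ ha) h1
    · unfold VanishesAt
      rw [hvW]
      exact mul_ne_zero (pow_ne_zero _ ha) h2
    · rw [hvA, hvA, hvW, hvW, mul_div_mul_left _ _ (pow_ne_zero _ ha), mul_div_mul_left _ _ (pow_ne_zero _ ha)]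
      exact h3
  · have hxB : u x ∉ B := fun h1 => hvB ⟨u x, h1, (huniq x hx v hv).symm⟩
    obtain ⟨q, hq, h0, h1, h2⟩ := hom x hx hxB
    have hr := rep_pn q
    have hr1 : q.rep 1 ≠ 0 := by
      intro h3
      refine h2 (hr.congr (k := q.rep 0) ?_)
      funext i
      fin_cases i
      · show q.rep 0 = q.rep 0 * 1
        rw [mul_one]
      · show q.rep 1 = q.rep 0 * 0
        rw [mul_zero, h3]
    have hr2 : Rep ![q.rep 0 / q.rep 1, 1] q := by
      refine hr.congr (k := q.rep 1) ?_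
      funext i
      fin_cases i
      · show q.rep 0 = q.rep 1 * (q.rep 0 / q.rep 1)
        field_simp
      · show q.rep 1 = q.rep 1 * 1
        rw [mul_one]
    refine ⟨q.rep 0 / q.rep 1, fun h3 => h0 ?_, fun h3 => h1 ?_, hq.tr hr2⟩
    · rwa [h3] at hr2
    · rwa [h3] at hr2
  · rcases hcase with ⟨S, ⟨⟨p, hp⟩, c, c', hcc⟩, h1⟩ | ⟨c, T, hT, h1⟩
    · refine Or.inl ⟨p 0, p 1, fun h2 => ?_, fun t h2 => ?_, fun x hx v w hv hvB hw heq => ?_⟩
      · -- if `p 1 = 0` then `S` is constant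
        have h3 : ∀ v : ℂˣ, S v = Projectivization.mk ℂ ![(1 : ℂ), 0] (fun h => one_ne_zero (congrFun h 0)) := by
          intro v
          obtain ⟨h4, h5⟩ := (hp v).congr (k := (p 0).eval (v : ℂ)) (v' := ![1, 0]) (by
            funext i
            fin_cases i
            · show (p 0).eval (v : ℂ) = (p 0).eval (v : ℂ) * 1
              rw [mul_one]
            · show (p 1).eval (v : ℂ) = (p 0).eval (v : ℂ) * 0
              rw [h2, mul_zero, Polynomial.eval_zero])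
          exact h5
        exact hcc ((h3 c).trans (h3 c').symm)
      · have h3 : ∀ v : ℂˣ, S v = Projectivization.mk ℂ ![t, (1 : ℂ)] (fun h => one_ne_zero (congrFun h 1)) := by
          intro v
          obtain ⟨h4, h5⟩ := (hp v).congr (k := (p 1).eval (v : ℂ)) (v' := ![t, 1]) (by
            funext i
            fin_cases i
            · show (p 0).eval (v : ℂ) = (p 1).eval (v : ℂ) * t
              rw [h2, Polynomial.eval_mul, Polynomial.eval_C, mul_comm]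
            · show (p 1).eval (v : ℂ) = (p 1).eval (v : ℂ) * 1
              rw [mul_one])
          exact h5
        exact hcc ((h3 c).trans (h3 c').symm)
      · have hxB : u x ∉ B := fun h1 => hvB ⟨u x, h1, (huniq x hx v hv).symm⟩
        obtain rfl := huniq x hx v hv
        have h2 : (![w, 1] : Fin 2 → ℂ) ≠ 0 := fun h => one_ne_zero (congrFun h 1)
        refine h1 x hx hxB _ (hasValue_of hw h2) ?_
        obtain ⟨h3, h4⟩ := (hp (u x)).congr (k := (p 1).eval (u x : ℂ)) (v' := ![w, 1]) (by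
          funext i
          fin_cases i
          · show (p 0).eval (u x : ℂ) = (p 1).eval (u x : ℂ) * w
            rw [← heq, mul_comm]
          · show (p 1).eval (u x : ℂ) = (p 1).eval (u x : ℂ) * 1
            rw [mul_one])
        exact h4.symm
    · classical
      refine Or.inr ⟨(c : ℂ), c.ne_zero, hT.toFinset.image fun q => (q.rep 0, q.rep 1), fun h2 => ?_, fun x hx hxc => ?_⟩
      · obtain ⟨q, -, hq⟩ := Finset.mem_image.1 h2
        apply q.rep_nonzero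
        funext i
        fin_cases i
        · exact (Prod.mk.inj hq).1
        · exact (Prod.mk.inj hq).2
      · obtain ⟨q, hq, hq'⟩ := h1 x hx (Units.ext (huniq x hx _ hxc).symm)
        exact ⟨_, Finset.mem_image_of_mem _ (hT.mem_toFinset.2 hq), hq'.tr (rep_pn q)⟩

theorem IsBasicOver.tr {U : QSurface} (h : IsBasicOver U) : IsBasic U ∨ Pool.Agent.H4.LU.IsBaseU U ∨ Pool.Agent.H46.LR.IsBaseR U := by
  rcases h with ⟨w, u, ho, h⟩ | ⟨hU, ⟨M, Y, V, e, j, h1, h2, h3⟩ | ⟨u, R, A, W, hR, h⟩⟩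
  · refine Or.inl ⟨w, u, ho, ?_⟩
    rcases h with h | ⟨R, A, W, hR, h⟩ | h
    · exact Or.inl h
    · exact Or.inr (Or.inl ⟨W, h.elliptic hR⟩)
    · exact Or.inr (Or.inr h)
  · exact Or.inr (Or.inl ⟨hU.finrank, hU.curve, M, Y, V, e, j, h1.tr, h1.hyp, h2.tr, h3.tr⟩)
  · exact Or.inr (Or.inr (h.unit hU hR))

end Pool.Agent.H15.OC
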